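import Pool.Agent.Helper47.FLG.Alg2

set_option autoImplicit false

/-!
# Project FLG, packet SB: the second strictness statement
-/

namespace Pool.Agent.Helper47.FLG

open Finset Pool.Agent.Helper47.RFn

namespace SBx

/-- spectral theorem for symmetric matrices -/
theorem spec {n : ℕ} (A : M2 n) (hA : A.IsSymm) : ∃ (x : Fin n → ℝ) (e : Fin n → Fin n → ℝ),
    (∀ k l, dot (e k) (e l) = if k = l then 1 else 0) ∧
    (∀ k p, ∑ q, A p q * e k q = x k * e k p) ∧
    (∀ a b, ∑ k, e k a * e k b = if a = b then 1 else 0) := by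
  have hH : A.IsHermitian := by
    rw [Matrix.IsHermitian, Matrix.conjTranspose_eq_transpose_of_trivial]
    exact hA
  set e : Fin n → Fin n → ℝ := fun k i => hH.eigenvectorBasis k i with he
  have h1 : ∀ k l, ∑ i, e k i * e l i = if k = l then 1 else 0 := by
    intro k l
    have h := (orthonormal_iff_ite.1 hH.eigenvectorBasis.orthonormal) l k
    rw [PiLp.inner_apply] at h
    simp only [RCLike.inner_apply, conj_trivial] at h
    simp only [he]
    rw [h]
    by_cases hkl : k = l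
    · rw [if_pos hkl, if_pos hkl.symm]
    · rw [if_neg hkl, if_neg fun h' => hkl h'.symm]
  have h2 : ∀ k, A.mulVec (e k) = hH.eigenvalues k • e k := fun k =>
    hH.mulVec_eigenvectorBasis k
  have h3 : ∀ a b, ∑ k, e k a * e k b = if a = b then 1 else 0 := by
    have hm : (Matrix.of e) * (Matrix.of e).transpose = 1 := by
      ext k l
      rw [Matrix.mul_apply, Matrix.one_apply]
      exact h1 k l
    have hm' : (Matrix.of e).transpose * (Matrix.of e) = 1 := mul_eq_one_comm.1 hm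
    intro a b
    have h := congrFun (congrFun hm' a) b
    rw [Matrix.mul_apply, Matrix.one_apply] at h
    exact h
  refine ⟨hH.eigenvalues, e, h1, fun k p => ?_, h3⟩
  have h := congrFun (h2 k) p
  rw [Pi.smul_apply, smul_eq_mul] at h
  exact h

theorem parseval {n : ℕ} (b : Fin n → Fin n → ℝ)
    (hb : ∀ p q, ∑ k, b k p * b k q = if p = q then 1 else 0) (u v : Fin n → ℝ) :
    ∑ k, dot u (b k) * dot v (b k) = dot u v := by
  have h1 : ∀ k, dot u (b k) * dot v (b k) = ∑ p, ∑ q, u p * v q * (b k p * b k q) := by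
    intro k
    unfold dot
    rw [sum_mul_sum]
    refine sum_congr rfl fun p _ => sum_congr rfl fun q _ => ?_
    ring
  simp only [h1]
  rw [sum_comm]
  unfold dot
  refine sum_congr rfl fun p _ => ?_
  rw [sum_comm]
  have h2 : ∀ q, ∑ k, u p * v q * (b k p * b k q) = u p * v q * (if p = q then 1 else 0) := by
    intro q
    rw [← mul_sum, hb]
  simp only [h2]
  simp

theorem nrm_dot {n : ℕ} (u : Fin n → ℝ) : nrm u = dot u u := by
  unfold nrm dot
  exact sum_congr rfl fun i _ => by ring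

theorem dot_comm' {n : ℕ} (u v : Fin n → ℝ) : dot u v = dot v u := by
  unfold dot
  exact sum_congr rfl fun i _ => by ring

theorem dot_sub_left {n : ℕ} (u v w : Fin n → ℝ) (c : ℝ) :
    dot (fun i => u i - c * v i) w = dot u w - c * dot v w := by
  unfold dot
  rw [mul_sum, ← sum_sub_distrib]
  exact sum_congr rfl fun i _ => by ring

theorem nrm_sub {n : ℕ} (u v : Fin n → ℝ) (c : ℝ) :
    nrm (fun i => u i - c * v i) = nrm u - 2 * c * dot u v + c ^ 2 * nrm v := by
  unfold dot nrm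
  rw [mul_sum, mul_sum, ← sum_sub_distrib, ← sum_add_distrib]
  exact sum_congr rfl fun i _ => by ring

theorem nrm_nonneg {n : ℕ} (u : Fin n → ℝ) : 0 ≤ nrm u :=
  sum_nonneg fun i _ => sq_nonneg _

/-- Bessel's inequality for two vectors -/
theorem bessel2 {n : ℕ} (u v w : Fin n → ℝ) (hv : nrm v = 1) (hw : nrm w = 1) (hvw : dot v w = 0) :
    dot u v ^ 2 + dot u w ^ 2 ≤ nrm u := by
  have h := nrm_nonneg (fun i => (fun i => u i - dot u v * v i) i - dot u w * w i)
  rw [nrm_sub, nrm_sub, dot_sub_left, hv, hw, hvw] at h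
  nlinarith [h]

/-- the frames used below -/
theorem ufr1 {n : ℕ} (e : Fin 4 → Fin n → ℝ) : ufr e 0 1 0 0 (-1) 0 0 = e 1 ∧
    ufr e 0 1 0 0 (-1) 0 1 = (fun i => - e 0 i) ∧ ufr e 0 1 0 0 (-1) 0 2 = e 3 := by
  refine ⟨?_, ?_, ?_⟩ <;> funext i <;> simp [ufr, lc]

theorem ufr2 {n : ℕ} (e : Fin 4 → Fin n → ℝ) : ufr e 1 0 0 0 0 1 0 = e 0 ∧
    ufr e 1 0 0 0 0 1 2 = e 3 := by
  refine ⟨?_, ?_⟩ <;> funext i <;> simp [ufr, lc]

theorem ufr3 {n : ℕ} (e : Fin 4 → Fin n → ℝ) : ufr e 0 0 1 0 (-1) 0 0 = e 2 := by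
  funext i; simp [ufr, lc]

theorem ufr4 {n : ℕ} (e : Fin 4 → Fin n → ℝ) : ufr e 0 0 0 1 0 (-1) 0 = e 3 := by
  funext i; simp [ufr, lc]

/-- the core: a null frame with vanishing reaction term has a vertex where `elk` vanishes -/
theorem core (hR4T : G_R4T) (hNV1 : G_NV1) (hEQF : G_EQF) (hU2 : G_U2) (hCL : Goal_CL) {n : ℕ}
    (hn : 4 ≤ n) (R : T4 n) (e : Fin 4 → Fin n → ℝ) (hNV : NV R e)
    (hz : qf (Q R) (cv (e 0) (e 1)) (cv (e 2) (e 3)) = 0) :
    nrm (e 0) = 1 ∧ ∃ (k : ℕ) (X : Fin k → Fin n → ℝ), 1 ≤ k ∧ k + 2 ≤ n ∧ Con X ∧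
      elk k R (e 0) X = 0 := by
  classical
  obtain ⟨-, -, r3, r4, -, -, -, -, -, -, r11, -, r13⟩ := hR4T n
  have hcurv : IsCurv R := hNV.fg.1
  have hon := hNV.on
  obtain ⟨A1, -, D1, hfr⟩ := hNV1 n hn R e hNV
  have hD1 := D1 hz
  -- second frame
  have hF := hfr 0 1 0 0 (-1) 0 (by norm_num) (by norm_num)
  obtain ⟨u1, u2, u3⟩ := ufr1 e
  have hzF : qf (Q R) (cv (ufr e 0 1 0 0 (-1) 0 0) (ufr e 0 1 0 0 (-1) 0 1))
      (cv (ufr e 0 1 0 0 (-1) 0 2) (ufr e 0 1 0 0 (-1) 0 3)) = 0 := by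
    rw [(hU2 n e 0 1 0 0 (-1) 0 hon (by norm_num) (by norm_num)).2 (Q R) ((hCL n).1 R hcurv)]
    exact hz
  obtain ⟨A2, -, D2, -⟩ := hNV1 n hn R _ hF
  have hD2 := D2 hzF
  rw [u1, u2, u3] at A2 hD2
  -- further frames
  have A3 := (hNV1 n hn R _ (hfr 1 0 0 0 0 1 (by norm_num) (by norm_num))).1
  rw [(ufr2 e).1, (ufr2 e).2] at A3
  have A4 := (hNV1 n hn R _ (hfr 0 0 1 0 (-1) 0 (by norm_num) (by norm_num))).1
  rw [ufr3 e] at A4
  have A5 := (hNV1 n hn R _ (hfr 0 0 0 1 0 (-1) (by norm_num) (by norm_num))).1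
  rw [ufr4 e] at A5
  obtain ⟨-, E1, E2, B0, -, -, C0'⟩ := hEQF n R _ _ _ A1
  obtain ⟨-, -, -, -, -, -, -, -, -, -, P0, -⟩ := C0' hD1
  obtain ⟨-, -, -, B1, T1, -, C1⟩ := hEQF n R _ _ _ A2
  obtain ⟨-, -, -, -, -, -, -, -, -, -, P1, -⟩ := C1 hD2
  obtain ⟨-, -, E3, -⟩ := hEQF n R _ _ _ A3
  obtain ⟨-, -, -, B2, -⟩ := hEQF n R _ _ _ A4
  obtain ⟨-, -, -, B3, -⟩ := hEQF n R _ _ _ A5
  have hne : ∀ i, nrm (e i) = 1 := fun i => by rw [nrm_dot, hon i i, if_pos rfl]
  -- the key claim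
  have key : ∀ (q : Fin n → ℝ) (s : ℝ), Eg R (e 0) s q → dot q (e 1) = 0 → dot q (e 2) = 0 →
      dot q (e 3) = 0 → nrm q = 1 → s ≠ 1 → s = 4 := by
    intro q s hE h1 h2 h3 hq hs
    have hq0 := hE.1
    have a1 := B1 q h1
    have a2 := B2 q h2
    have a3 := B3 q h3
    have a0 := B0 q hq0
    have p0 := P0 q s hE hs h1
    rw [r4, r4] at p0
    rw [hq] at a0 a1 a2 a3
    have h4 : R4 R (e 1) q (e 1) q = 4 := le_antisymm (by linarith) (by linarith)
    have hE1 := T1 q h1 (by rw [hq, h4]; norm_num)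
    have hd : dot q (fun i => - e 0 i) = 0 := by
      have : dot q (fun i => - e 0 i) = - dot q (e 0) := by
        unfold dot
        rw [← sum_neg_distrib]
        exact sum_congr rfl fun i _ => by ring
      rw [this, hq0, neg_zero]
    have p1 := P1 q 4 hE1 (by norm_num) hd
    have hneg : K2 R (fun i => - e 0 i) q = R4 R (e 0) q (e 0) q := by
      rw [r4]
      unfold R4
      refine sum_congr rfl fun i _ => sum_congr rfl fun j _ => sum_congr rfl fun k _ =>
        sum_congr rfl fun l _ => by ring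
    rw [hneg, r4] at p1
    have hs' : R4 R (e 0) q (e 0) q = s := by
      rw [hE.2 q, ← nrm_dot, hq, mul_one]
    rw [hs'] at p1 a0
    linarith
  -- spectral decomposition
  set M : M2 n := fun p q => R4 R (e 0) (sb p) (e 0) (sb q) with hM
  have hsymR : ∀ u v, R4 R (e 0) u (e 0) v = R4 R (e 0) v (e 0) u := fun u v =>
    (r3 R hcurv (e 0) u (e 0) v).2.2.1
  have hMs : M.IsSymm := by
    ext p q
    rw [Matrix.transpose_apply]
    exact hsymR _ _
  obtain ⟨x, b, hb1, hb2, hb3⟩ := spec M hMs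
  have hb4 : ∀ k u, R4 R (e 0) u (e 0) (b k) = x k * dot u (b k) := by
    intro k u
    have h1 : ∀ p, R4 R (e 0) (sb p) (e 0) (b k) = x k * b k p := by
      intro p
      rw [(r11 R (e 0) (sb p) (e 0) (b k)).2.2.2, ← hb2 k p]
      exact sum_congr rfl fun q _ => by simp only [hM]; ring
    rw [(r11 R (e 0) u (e 0) (b k)).2.1]
    simp only [h1]
    unfold dot
    rw [mul_sum]
    exact sum_congr rfl fun q _ => by ring
  have hbn : ∀ k, nrm (b k) = 1 := fun k => by rw [nrm_dot, hb1 k k, if_pos rfl]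
  have hE0 : ∀ k, x k * dot (e 0) (b k) = 0 := by
    intro k
    rw [← hb4]
    have := (r3 R hcurv (e 0) (e 0) (e 0) (b k)).1
    linarith
  have hEs : ∀ (v : Fin n → ℝ) (s : ℝ), Eg R (e 0) s v → ∀ k, (x k - s) * dot v (b k) = 0 := by
    intro v s hv k
    have h1 := hv.2 (b k)
    rw [hsymR, hb4, dot_comm' (b k) v] at h1
    linarith
  have hcases : ∀ k, x k = 0 ∨ x k = 1 ∨ x k = 4 := by
    intro k
    by_contra hcon
    push Not at hcon
    obtain ⟨n0, n1, n4⟩ := hcon
    have d0 : dot (e 0) (b k) = 0 := (mul_eq_zero.1 (hE0 k)).resolve_left n0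
    have d1 : dot (e 1) (b k) = 0 := (mul_eq_zero.1 (hEs _ _ E1 k)).resolve_left (sub_ne_zero.2 n4)
    have d2 : dot (e 2) (b k) = 0 := (mul_eq_zero.1 (hEs _ _ E2 k)).resolve_left (sub_ne_zero.2 n1)
    have d3 : dot (e 3) (b k) = 0 := (mul_eq_zero.1 (hEs _ _ E3 k)).resolve_left (sub_ne_zero.2 n1)
    rw [dot_comm'] at d0 d1 d2 d3
    exact n4 (key (b k) (x k) ⟨d0, fun p => hb4 k p⟩ d1 d2 d3 (hbn k) n1)
  set S0 := univ.filter fun k => x k = 0 with hS0
  set S1 := univ.filter fun k => x k = 1 with hS1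
  set S4 := univ.filter fun k => x k = 4 with hS4
  -- total number
  have hsplit : ∀ F : Fin n → ℝ, ∑ k, F k = ∑ k ∈ S0, F k + ∑ k ∈ S1, F k + ∑ k ∈ S4, F k := by
    intro F
    rw [hS0, hS1, hS4, sum_filter, sum_filter, sum_filter, ← sum_add_distrib, ← sum_add_distrib]
    refine sum_congr rfl fun k _ => ?_
    rcases hcases k with h | h | h <;> rw [h] <;> norm_num
  have hcard : (n : ℝ) = S0.card + S1.card + S4.card := by
    have := hsplit fun _ => 1
    simpa using this
  -- one zero eigenvalue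
  have c0 : (S0.card : ℝ) = 1 := by
    have h1 : ∀ k ∈ S0, dot (e 0) (b k) * dot (e 0) (b k) = 1 := by
      intro k hk
      have hxk : x k = 0 := (mem_filter.1 hk).2
      set c := dot (b k) (e 0) with hc
      set q : Fin n → ℝ := fun i => b k i - c * e 0 i with hq
      have hq0 : dot q (e 0) = 0 := by
        rw [hq, dot_sub_left, ← nrm_dot, hne 0, ← hc]
        ring
      have hqn : nrm q = 1 - c ^ 2 := by
        rw [hq, nrm_sub, hbn, hne 0, ← hc]
        ring
      have hqq : R4 R (e 0) q (e 0) q = 0 := by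
        have e1 : R4 R (e 0) q (e 0) q = R4 R (e 0) q (e 0) (b k) - c * R4 R (e 0) q (e 0) (e 0) := by
          unfold R4
          simp only [mul_sum, ← sum_sub_distrib]
          refine sum_congr rfl fun i _ => sum_congr rfl fun j _ => sum_congr rfl fun k' _ =>
            sum_congr rfl fun l _ => ?_
          simp only [hq]
          ring
        have e2 : R4 R (e 0) q (e 0) (e 0) = 0 := by
          have := (r3 R hcurv (e 0) q (e 0) (e 0)).2.1
          linarith
        rw [e1, e2, hb4, hxk]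
        ring
      have h2 := (B0 q hq0).1
      rw [hqq, hqn] at h2
      have h3 := nrm_nonneg q
      rw [hqn] at h3
      rw [dot_comm' (e 0) (b k), ← hc]
      nlinarith
    have h2 : ∀ k, k ∉ S0 → dot (e 0) (b k) * dot (e 0) (b k) = 0 := by
      intro k hk
      have hxk : x k ≠ 0 := fun h => hk (mem_filter.2 ⟨mem_univ _, h⟩)
      rw [(mul_eq_zero.1 (hE0 k)).resolve_left hxk, mul_zero]
    have h3 := parseval b hb3 (e 0) (e 0)
    rw [← sum_subset (subset_univ S0) (fun k _ hk => h2 k hk), sum_congr rfl h1, sum_const,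
      nsmul_eq_mul, mul_one, hon 0 0, if_pos rfl] at h3
    exact h3
  -- the eigenvalue four
  have c4 : 1 ≤ S4.card := by
    by_contra hlt
    have he : S4 = ∅ := card_eq_zero.1 (by omega)
    have h2 : ∀ k, dot (e 1) (b k) * dot (e 1) (b k) = 0 := by
      intro k
      have hxk : x k ≠ 4 := fun h => by
        have : k ∈ S4 := mem_filter.2 ⟨mem_univ _, h⟩
        rw [he] at this
        simp at this
      rw [(mul_eq_zero.1 (hEs _ _ E1 k)).resolve_left (sub_ne_zero.2 hxk), mul_zero]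
    have h3 := parseval b hb3 (e 1) (e 1)
    rw [sum_eq_zero fun k _ => h2 k, hon 1 1, if_pos rfl] at h3
    norm_num at h3
  -- the eigenvalue one
  have c1 : (2 : ℝ) ≤ S1.card := by
    have h2 : ∀ k, k ∉ S1 → dot (e 2) (b k) * dot (e 2) (b k) + dot (e 3) (b k) * dot (e 3) (b k)
        = 0 := by
      intro k hk
      have hxk : x k ≠ 1 := fun h => hk (mem_filter.2 ⟨mem_univ _, h⟩)
      rw [(mul_eq_zero.1 (hEs _ _ E2 k)).resolve_left (sub_ne_zero.2 hxk),
        (mul_eq_zero.1 (hEs _ _ E3 k)).resolve_left (sub_ne_zero.2 hxk)]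
      ring
    have h3 : ∑ k, (dot (e 2) (b k) * dot (e 2) (b k) + dot (e 3) (b k) * dot (e 3) (b k)) = 2 := by
      rw [sum_add_distrib, parseval b hb3, parseval b hb3, hon 2 2, hon 3 3, if_pos rfl, if_pos rfl]
      norm_num
    rw [← sum_subset (subset_univ S1) (fun k _ hk => h2 k hk)] at h3
    have h4 : ∑ k ∈ S1, (dot (e 2) (b k) * dot (e 2) (b k) + dot (e 3) (b k) * dot (e 3) (b k)) ≤
        ∑ _k ∈ S1, (1 : ℝ) := by
      refine sum_le_sum fun k _ => ?_
      have h5 := bessel2 (b k) (e 2) (e 3) (hne 2) (hne 3) (by rw [hon 2 3, if_neg (by decide)])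
      rw [hbn, dot_comm' (b k) (e 2), dot_comm' (b k) (e 3)] at h5
      nlinarith
    rw [sum_const, nsmul_eq_mul, mul_one, h3] at h4
    exact h4
  -- the frame
  refine ⟨hne 0, S4.card, fun i => b (S4.equivFin.symm i), c4, ?_, ?_, ?_⟩
  · have h2 : ((S4.card + 2 : ℕ) : ℝ) ≤ n := by
      push_cast
      linarith
    exact_mod_cast h2
  · intro c
    refine le_of_eq ?_
    have h1 : nrm (fun j => ∑ i, c i * b (S4.equivFin.symm i) j) =
        ∑ i, ∑ i', c i * c i' * dot (b (S4.equivFin.symm i)) (b (S4.equivFin.symm i')) := by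
      have e1 : nrm (fun j => ∑ i, c i * b (S4.equivFin.symm i) j) =
          ∑ j, ∑ i, ∑ i', (c i * b (S4.equivFin.symm i) j) * (c i' * b (S4.equivFin.symm i') j) := by
        unfold nrm
        exact sum_congr rfl fun j _ => by rw [pow_two, sum_mul_sum]
      rw [e1, sum_comm]
      refine sum_congr rfl fun i _ => ?_
      rw [sum_comm]
      refine sum_congr rfl fun i' _ => ?_
      unfold dot
      rw [mul_sum]
      exact sum_congr rfl fun j _ => by ring
    rw [h1]
    unfold nrm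
    refine sum_congr rfl fun i _ => ?_
    rw [sum_eq_single i]
    · rw [hb1, if_pos rfl]; ring
    · intro i' _ hi'
      rw [hb1, if_neg, mul_zero]
      intro h
      exact hi' (S4.equivFin.symm.injective (Subtype.ext h)).symm
    · intro h
      exact absurd (mem_univ i) h
  · have hK : ∀ i : Fin S4.card, K2 R (e 0) (b (S4.equivFin.symm i)) = 4 := by
      intro i
      have hx : x (S4.equivFin.symm i) = 4 := (mem_filter.1 (S4.equivFin.symm i).2).2
      rw [r4, hb4, hx, ← nrm_dot, hbn]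
      norm_num
    have hRic : rq (Ric R) (e 0) = S1.card + 4 * S4.card := by
      rw [r13]
      have h1 : ∀ i, R4 R (e 0) (sb i) (e 0) (sb i) = ∑ k, x k * (b k i * b k i) := by
        intro i
        have h2 : ∀ k, x k * (b k i * b k i) = ∑ q, M i q * (b k i * b k q) := by
          intro k
          have := hb2 k i
          calc x k * (b k i * b k i) = (x k * b k i) * b k i := by ring
            _ = (∑ q, M i q * b k q) * b k i := by rw [this]
            _ = ∑ q, M i q * (b k i * b k q) := by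
              rw [sum_mul]
              exact sum_congr rfl fun q _ => by ring
        simp only [h2]
        rw [sum_comm]
        simp only [← mul_sum, hb3]
        simp [hM]
      simp only [h1]
      rw [sum_comm]
      have h3 : ∀ k, ∑ i, x k * (b k i * b k i) = x k := by
        intro k
        rw [← mul_sum]
        have := hb1 k k
        rw [if_pos rfl] at this
        unfold dot at this
        rw [this, mul_one]
      simp only [h3]
      rw [hsplit, sum_congr rfl (fun k hk => (mem_filter.1 hk).2 : ∀ k ∈ S0, x k = 0),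
        sum_congr rfl (fun k hk => (mem_filter.1 hk).2 : ∀ k ∈ S1, x k = 1),
        sum_congr rfl (fun k hk => (mem_filter.1 hk).2 : ∀ k ∈ S4, x k = 4)]
      simp
      ring
    unfold elk
    rw [hRic]
    simp only [hK]
    rw [sum_const, card_univ, Fintype.card_fin, nsmul_eq_mul, hcard, c0]
    ring

theorem Q_smul (hQB : Goal_QB) {n : ℕ} (c : ℝ) (R : T4 n) : Q (c • R) = (c ^ 2) • Q R := by
  obtain ⟨q1, -, -, q4, q5, -⟩ := hQB n
  rw [← q1 (c • R), q4, q5, q4, q1, smul_smul, pow_two]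

end SBx

/-- Packet SB: the second strictness statement. -/
theorem g_SB (hR4T : G_R4T) (hFG1 : G_FG1) (hNV1 : G_NV1) (hEQF : G_EQF) (hNW : G_NW)
    (hFG2 : G_FG2) (hU2 : G_U2) (hCL : Goal_CL) (hLN : Goal_LN) (hQB : Goal_QB) (hWQ : Goal_WQ) :
    G_SB := by
  intro n hn R hFG hlam hno z w hqz hIz
  obtain ⟨r1, r2, r3, r4, r5, r6, r7, r8, r9, r10, r11, r12, r13⟩ := hR4T n
  obtain ⟨l1, l2, -, l4, -, -, -, -, -, -, -, -, l13, -⟩ := hLN n
  have hcurv := hFG.1
  have hn0 : (0 : ℝ) < (n : ℝ) - 1 := by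
    have : (4 : ℝ) ≤ n := by exact_mod_cast hn
    linarith
  have hpos : ∀ u v, wd u v ≠ 0 → 0 < K2 R u v := by
    intro u v huv
    have h1 := (hFG2 n hn R hFG).2.2.1 u v
    have h2 : 0 < wd u v := lt_of_le_of_ne (r8 u v) (Ne.symm huv)
    have h3 : 0 < lam R / (16 * ((n : ℝ) - 1)) * wd u v := by positivity
    linarith
  obtain ⟨e, hon, k1, k2, k3, hS⟩ := (hNW n hn).2.2 R z w hFG hpos hqz hIz
  have hwd : wd (e 0) (e 2) = 1 := by
    unfold wd
    rw [r9, r9, hon 0 0, hon 2 2, hon 0 2, if_pos rfl, if_pos rfl, if_neg (by decide)]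
    norm_num
  set m := K2 R (e 0) (e 2) with hm
  have hm0 : 0 < m := hpos _ _ (by rw [hwd]; norm_num)
  have hI0 : 0 < qf (Id4 n) z w := by
    have h1 : (Matrix.IsSymm (1 : M2 n)) := Matrix.isSymm_one
    have h2 := (hWQ n 1 1 1 h1 (fun v => by rw [(hLN n).2.2.2.2.2.2.2.2.2.2.2.2.2 v]; simp)
      (fun v => by rw [(hLN n).2.2.2.2.2.2.2.2.2.2.2.2.2 v]; simp) z w).1
    exact lt_of_le_of_ne h2 (Ne.symm hIz)
  set R' : T4 n := m⁻¹ • R with hR'
  have hRR : R = m • R' := by
    rw [hR', smul_smul, mul_inv_cancel₀ hm0.ne', one_smul]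
  have hFG' : FG R' := (hFG1 n).2.1 m⁻¹ R (inv_nonneg.2 hm0.le) hFG
  have hNV : NV R' e := by
    refine ⟨hFG', hon, ?_, ?_⟩
    · rw [hR', r4, (r2 R R (e 0) (e 2) (e 0) (e 2) m⁻¹).2, ← r4, ← hm, inv_mul_cancel₀ hm0.ne']
    · rw [hR', l2]
      have h1 := hS R hcurv
      rw [hqz, mul_zero] at h1
      rw [(mul_eq_zero.1 h1.symm).resolve_left hIz, mul_zero]
  have hQ : qf (Q R) (cv (e 0) (e 1)) (cv (e 2) (e 3)) =
      m ^ 2 * qf (Q R') (cv (e 0) (e 1)) (cv (e 2) (e 3)) := by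
    conv_lhs => rw [hRR, SBx.Q_smul hQB, l2]
  have hge := (hNV1 n hn R' e hNV).2.1
  have hne : qf (Q R') (cv (e 0) (e 1)) (cv (e 2) (e 3)) ≠ 0 := by
    intro h0
    obtain ⟨h1, k, X, hk1, hk2, hX, hel⟩ := SBx.core hR4T hNV1 hEQF hU2 hCL hn R' e hNV h0
    have h2 := hno k (e 0) X hk1 hk2 h1 hX
    have h3 : elk k R (e 0) X = m * elk k R' (e 0) X := by
      unfold elk
      have h4 : rq (Ric R) (e 0) = m * rq (Ric R') (e 0) := by
        conv_lhs => rw [hRR, l4, l13]
      have h5 : ∀ i, K2 R (e 0) (X i) = m * K2 R' (e 0) (X i) := by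
        intro i
        rw [r4, r4]
        conv_lhs => rw [hRR]
        exact (r2 R' R' _ _ _ _ m).2
      rw [h4]
      simp only [h5]
      rw [← mul_sum]
      ring
    rw [h3, hel, mul_zero] at h2
    exact lt_irrefl _ h2
  have hgt : 0 < qf (Q R') (cv (e 0) (e 1)) (cv (e 2) (e 3)) := lt_of_le_of_ne hge (Ne.symm hne)
  have h4 := hS (Q R) ((hCL n).1 R hcurv)
  rw [hQ] at h4
  have h5 : 0 < qf (Id4 n) z w * (m ^ 2 * qf (Q R') (cv (e 0) (e 1)) (cv (e 2) (e 3))) := by
    positivity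
  linarith

end Pool.Agent.Helper47.FLG
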