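import Pool.Agent.Helper47.FLG.Pde
import Pool.Agent.Helper2.RFn.INV

set_option autoImplicit false

/-!
# Project FLG, packet SFA: the first soft estimate
-/

namespace Pool.Agent.Helper47.FLG

open Finset Pool.Agent.Helper47.RFn

noncomputable section

namespace SFAx

variable {n : ℕ} {T : ℝ}

/-! ## Elements of the algebra -/

def K2B (F : FB n T) (S : Ix n → Ix n → Ix n → Ix n → F.B) (u w : Ix n → ℝ) : F.B :=
  ∑ a, ∑ b, ∑ c, ∑ d, (u a * w b * u c * w d) • S a b c d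

theorem ev_K2B (F : FB n T) (S : Ix n → Ix n → Ix n → Ix n → F.B) (u w : Ix n → ℝ)
    (x : F.Z) (t : TI T) :
    F.ev x t (K2B F S u w) = K2 (fun i j k l => F.ev x t (S i j k l)) u w := by
  unfold K2
  simp only [K2B, map_sum, map_smul, smul_eq_mul]
  refine sum_congr rfl fun i _ => sum_congr rfl fun j _ => sum_congr rfl fun k _ =>
    sum_congr rfl fun l _ => by ring

theorem Hop_K2B (F : FB n T) (S : Ix n → Ix n → Ix n → Ix n → F.B) (u w : Ix n → ℝ) :
    F.Hop (K2B F S u w) = K2B F (fun i j k l => F.Hop (S i j k l)) u w := by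
  simp only [INV.Hop_eq, K2B, map_sum, map_smul]

def mB (F : FB n T) (ε : ℝ) (S : Ix n → Ix n → Ix n → Ix n → F.B) (M : Ix n → Ix n → ℝ) : F.B :=
  (∑ a, ∑ b, M a b • (INV.RS F S a b - INV.LS F S * F.P a b)) - ε • INV.LS F S

def PB (F : FB n T) (v : Ix n → ℝ) : F.B := INV.fr F F.P v

def fF (F : FB n T) (k : ℕ) (K ε : ℝ) (S : Ix n → Ix n → Ix n → Ix n → F.B) (v : Ix n → ℝ)
    (X : Fin k → Ix n → ℝ) (M : Ix n → Ix n → ℝ) : F.B :=
  K • ((4 * (k : ℝ)) • INV.fr F (INV.RS F S) v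
    - ((n : ℝ) - 1 + 3 * k) • ∑ i, K2B F S v (X i)) - mB F ε S M * PB F v

/-- the linear form `m` -/
def mT (ε : ℝ) (s : T4 n) (M : Fin n → Fin n → ℝ) : ℝ :=
  (∑ a, ∑ b, M a b * Ric0 s a b) - ε * lam s

theorem ev_RS (F : FB n T) (S : Ix n → Ix n → Ix n → Ix n → F.B) (x : F.Z) (t : TI T) (i j : Ix n) :
    F.ev x t (INV.RS F S i j) = Ric (fun i j k l => F.ev x t (S i j k l)) i j := by
  simp only [INV.RS, Ric, map_sum]

theorem ev_fF (hDIC : G_DIC) (hRP2 : Goal_RP2) (hRP3 : Goal_RP3) (hn : 2 ≤ n) (F : FB n T) (k : ℕ)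
    (K ε : ℝ) (x : F.Z) (t : TI T) (ι : Ix n → Fin n → ℝ) (hι : Iso (F.nv x t) ι) (s : T4 n)
    (S : Ix n → Ix n → Ix n → Ix n → F.B)
    (h1 : pull ι (fun i j k l => F.ev x t (S i j k l)) = s)
    (h2 : Hor (F.nv x t) (fun i j k l => F.ev x t (S i j k l))) (v : Ix n → ℝ)
    (X : Fin k → Ix n → ℝ) (M : Ix n → Ix n → ℝ) :
    F.ev x t (fF F k K ε S v X M) =
      K * elk k s (pullr ι v) (fun i => pullr ι (X i)) -
        mT ε s (pull2 ι M) * nrm (pullr ι v) := by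
  obtain ⟨-, -, -, -, l, -, -, -, -, -⟩ := hRP2 n _ ι _ hι h2
  obtain ⟨-, -, -, -, -, -, -, -, -, -, nn, -⟩ := hRP3 n _ ι hι
  obtain ⟨-, -, -, -, -, d6, d7, -⟩ := hDIC n hn _ ι _ hι h2
  rw [h1] at l
  have e2 : F.ev x t (INV.LS F S) = lam s := by
    rw [l]
    simp only [INV.LS, INV.RS, map_smul, map_sum, smul_eq_mul, Ric]
    ring
  have d6' := d6 k v X
  have d7' := d7 M
  rw [h1] at d6' d7'
  have e5 : F.ev x t (PB F v) = nrm (pullr ι v) := by
    have e6 : (fun i j => F.ev x t (F.P i j)) = Pm (F.nv x t) := by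
      funext i j
      exact INV.ev_P F x t i j
    rw [PB, INV.ev_fr, e6, INV.rq_Pm, nn v]
  have e7 : F.ev x t (mB F ε S M) = mT ε s (pull2 ι M) := by
    unfold mB mT
    rw [← d7', map_sub, map_smul, e2, smul_eq_mul, map_sum]
    congr 1
    refine sum_congr rfl fun a _ => ?_
    rw [map_sum]
    refine sum_congr rfl fun b _ => ?_
    rw [map_smul, map_sub, map_mul, e2, ev_RS, INV.ev_P, smul_eq_mul]
  have e8 : F.ev x t (INV.fr F (INV.RS F S) v) =
      rq (Ric (fun i j k l => F.ev x t (S i j k l))) v := by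
    rw [INV.ev_fr]
    congr 1
    funext i j
    exact ev_RS F S x t i j
  unfold fF
  rw [map_sub, map_mul, e5, e7, map_smul, map_sub, map_smul, map_smul, map_sum, e8]
  simp only [ev_K2B, smul_eq_mul]
  rw [← d6']

theorem Hop_fF (hPRD : Goal_PRD) (F : FB n T) (hF : F.Base) (k : ℕ) (K ε : ℝ)
    (S : Ix n → Ix n → Ix n → Ix n → F.B) (v : Ix n → ℝ) (X : Fin k → Ix n → ℝ)
    (M : Ix n → Ix n → ℝ) :
    F.Hop (fF F k K ε S v X M) = fF F k K ε (fun i j k l => F.Hop (S i j k l)) v X M := by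
  obtain ⟨-, -, -, -, hP, -⟩ := (hPRD n T F).2 hF
  have h1 : ∀ i j, INV.HopL F (INV.RS F S i j) =
      INV.RS F (fun i j k l => F.Hop (S i j k l)) i j := fun i j => by
    simp only [INV.RS, INV.Hop_eq, map_sum]
  have h2 : INV.HopL F (INV.LS F S) = INV.LS F (fun i j k l => F.Hop (S i j k l)) := by
    simp only [INV.LS, map_smul, map_sum, h1]
  have h3 : ∀ g : F.B, INV.HopL F (g * PB F v) = INV.HopL F g * PB F v := by
    intro g
    unfold PB INV.fr
    simp only [mul_sum, mul_smul_comm, map_sum, map_smul]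
    refine sum_congr rfl fun i _ => sum_congr rfl fun j _ => ?_
    rw [← INV.Hop_eq, hP, ← INV.Hop_eq]
  have h4 : INV.HopL F (mB F ε S M) = mB F ε (fun i j k l => F.Hop (S i j k l)) M := by
    unfold mB
    simp only [map_sub, map_smul, map_sum, h2, h1]
    congr 1
    refine sum_congr rfl fun i _ => sum_congr rfl fun j _ => ?_
    rw [← INV.Hop_eq, hP, INV.Hop_eq, h2]
  have h5 : INV.HopL F (INV.fr F (INV.RS F S) v) =
      INV.fr F (INV.RS F (fun i j k l => F.Hop (S i j k l))) v := by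
    simp only [INV.fr, map_sum, map_smul, h1]
  have h6 : ∀ u w, INV.HopL F (K2B F S u w) = K2B F (fun i j k l => F.Hop (S i j k l)) u w := by
    intro u w
    rw [← INV.Hop_eq, Hop_K2B]
  rw [INV.Hop_eq]
  unfold fF
  simp only [map_sub, map_smul, map_sum, h3, h4, h5, h6]

theorem Hop_c (hPRD : Goal_PRD) (F : FB n T) (hF : F.Base) (v : Ix n → ℝ) :
    F.Hop (1 - PB F v) = 0 := by
  obtain ⟨-, -, -, -, hP, -⟩ := (hPRD n T F).2 hF
  have h1 : F.Hop (1 : F.B) = 0 := by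
    simp [FB.Hop, FB.Lap]
  have h2 : ∀ i j, INV.HopL F (F.P i j) = 0 := by
    intro i j
    have := hP 1 i j
    rw [one_mul, h1, zero_mul, INV.Hop_eq] at this
    exact this
  have h3 : F.Hop (PB F v) = 0 := by
    rw [INV.Hop_eq]
    unfold PB INV.fr
    simp only [map_sum, map_smul, h2, smul_zero, sum_const_zero]
  have h4 : F.Hop (1 - PB F v) = F.Hop 1 - F.Hop (PB F v) := by
    simp only [INV.Hop_eq, map_sub]
  rw [h4, h1, h3, sub_zero]

/-! ## The index set -/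

def KS (n k : ℕ) : Set ((Ix n → ℝ) × (Fin k → Ix n → ℝ) × (Ix n → Ix n → ℝ)) :=
  {q | nrm q.1 = 1 ∧ Con q.2.1 ∧ ∑ a, ∑ b, q.2.2 a b ^ 2 ≤ 1}

theorem abs_le_one {m : ℕ} {v : Fin m → ℝ} (h : nrm v ≤ 1) (i : Fin m) : |v i| ≤ 1 := by
  have h3 : v i ^ 2 ≤ 1 :=
    le_trans (Finset.single_le_sum (f := fun i => v i ^ 2)
      (fun j _ => sq_nonneg _) (Finset.mem_univ i)) h
  exact abs_le_one_iff_mul_self_le_one.2 (by nlinarith)

theorem con_nrm {m k : ℕ} {X : Fin k → Fin m → ℝ} (h : Con X) (i : Fin k) : nrm (X i) ≤ 1 := by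
  have h1 := h (Pi.single i 1)
  have h2 : (fun j => ∑ i', (Pi.single i (1 : ℝ) : Fin k → ℝ) i' * X i' j) = X i := by
    funext j
    simp [Pi.single_apply]
  have h3 : nrm (Pi.single i (1 : ℝ) : Fin k → ℝ) = 1 := by
    unfold nrm
    simp [Pi.single_apply]
  rw [h2, h3] at h1
  exact h1

theorem continuous_nrm (m : ℕ) : Continuous (fun v : Fin m → ℝ => nrm v) := by
  unfold nrm
  exact continuous_finset_sum _ fun i _ => (continuous_apply i).pow 2

theorem KS_compact (n k : ℕ) : IsCompact (KS n k) := by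
  apply Metric.isCompact_of_isClosed_isBounded
  · have c1 : IsClosed {q : (Ix n → ℝ) × (Fin k → Ix n → ℝ) × (Ix n → Ix n → ℝ) | nrm q.1 = 1} :=
      isClosed_eq ((continuous_nrm _).comp continuous_fst) continuous_const
    have c2 : IsClosed {q : (Ix n → ℝ) × (Fin k → Ix n → ℝ) × (Ix n → Ix n → ℝ) | Con q.2.1} := by
      have : {q : (Ix n → ℝ) × (Fin k → Ix n → ℝ) × (Ix n → Ix n → ℝ) | Con q.2.1} =
          ⋂ c : Fin k → ℝ, {q | nrm (fun j => ∑ i, c i * q.2.1 i j) ≤ nrm c} := by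
        ext q
        simp [Con]
      rw [this]
      refine isClosed_iInter fun c => isClosed_le ((continuous_nrm _).comp ?_) continuous_const
      refine continuous_pi fun j => continuous_finset_sum _ fun i _ => continuous_const.mul ?_
      fun_prop
    have c3 : IsClosed {q : (Ix n → ℝ) × (Fin k → Ix n → ℝ) × (Ix n → Ix n → ℝ) |
        ∑ a, ∑ b, q.2.2 a b ^ 2 ≤ 1} := by
      refine isClosed_le ?_ continuous_const
      refine continuous_finset_sum _ fun a _ => continuous_finset_sum _ fun b _ => ?_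
      fun_prop
    exact c1.inter (c2.inter c3)
  · refine (Metric.isBounded_closedBall
      (x := (0 : (Ix n → ℝ) × (Fin k → Ix n → ℝ) × (Ix n → Ix n → ℝ))) (r := 1)).subset ?_
    rintro ⟨v, X, M⟩ ⟨hv, hX, hM⟩
    rw [mem_closedBall_zero_iff, Prod.norm_def, Prod.norm_def]
    refine max_le ?_ (max_le ?_ ?_)
    · rw [pi_norm_le_iff_of_nonneg zero_le_one]
      exact fun i => abs_le_one (le_of_eq hv) i
    · rw [pi_norm_le_iff_of_nonneg zero_le_one]
      intro i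
      rw [pi_norm_le_iff_of_nonneg zero_le_one]
      exact fun j => abs_le_one (con_nrm hX i) j
    · rw [pi_norm_le_iff_of_nonneg zero_le_one]
      intro i
      rw [pi_norm_le_iff_of_nonneg zero_le_one]
      intro j
      have h3 : M i j ^ 2 ≤ 1 := by
        refine le_trans ?_ hM
        refine le_trans ?_ (Finset.single_le_sum (f := fun a => ∑ b, M a b ^ 2)
          (fun a _ => sum_nonneg fun b _ => sq_nonneg _) (Finset.mem_univ i))
        exact Finset.single_le_sum (f := fun b => M i b ^ 2)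
          (fun b _ => sq_nonneg _) (Finset.mem_univ j)
      rw [Real.norm_eq_abs]
      exact abs_le_one_iff_mul_self_le_one.2 (by nlinarith)

/-- the family -/
def fam (F : FB n T) (k : ℕ) (K ε : ℝ) (S : Ix n → Ix n → Ix n → Ix n → F.B) (q : KS n k) : F.B :=
  fF F k K ε S q.1.1 q.1.2.1 q.1.2.2 + (1 - PB F q.1.1)

theorem cont_fam (F : FB n T) (hF : F.Base) (k : ℕ) (K ε : ℝ)
    (S : Ix n → Ix n → Ix n → Ix n → F.B) :
    Continuous (fun q : (KS n k) × (F.Z × TI T) => F.ev q.2.1 q.2.2 (fam F k K ε S q.1)) := by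
  have hc : ∀ f : F.B, Continuous (fun q : (KS n k) × (F.Z × TI T) => F.ev q.2.1 q.2.2 f) :=
    fun f => (hF.cont f).comp continuous_snd
  have hv : ∀ i, Continuous (fun q : (KS n k) × (F.Z × TI T) => q.1.1.1 i) := by
    intro i
    fun_prop
  have hX : ∀ i j, Continuous (fun q : (KS n k) × (F.Z × TI T) => q.1.1.2.1 i j) := by
    intro i j
    fun_prop
  have hM : ∀ i j, Continuous (fun q : (KS n k) × (F.Z × TI T) => q.1.1.2.2 i j) := by
    intro i j
    fun_prop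
  have hP : Continuous (fun q : (KS n k) × (F.Z × TI T) => F.ev q.2.1 q.2.2 (PB F q.1.1.1)) := by
    simp only [PB, INV.fr, map_sum, map_smul, smul_eq_mul]
    exact continuous_finset_sum _ fun i _ => continuous_finset_sum _ fun j _ =>
      ((hv i).mul (hv j)).mul (hc _)
  have hR : Continuous (fun q : (KS n k) × (F.Z × TI T) =>
      F.ev q.2.1 q.2.2 (INV.fr F (INV.RS F S) q.1.1.1)) := by
    simp only [INV.fr, map_sum, map_smul, smul_eq_mul]
    exact continuous_finset_sum _ fun i _ => continuous_finset_sum _ fun j _ =>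
      ((hv i).mul (hv j)).mul (hc _)
  have hK : ∀ i, Continuous (fun q : (KS n k) × (F.Z × TI T) =>
      F.ev q.2.1 q.2.2 (K2B F S q.1.1.1 (q.1.1.2.1 i))) := by
    intro i
    simp only [K2B, map_sum, map_smul, smul_eq_mul]
    exact continuous_finset_sum _ fun a _ => continuous_finset_sum _ fun b _ =>
      continuous_finset_sum _ fun c _ => continuous_finset_sum _ fun d _ =>
      ((((hv a).mul (hX i b)).mul (hv c)).mul (hX i d)).mul (hc _)
  have hm : Continuous (fun q : (KS n k) × (F.Z × TI T) =>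
      F.ev q.2.1 q.2.2 (mB F ε S q.1.1.2.2)) := by
    simp only [mB, map_sub, map_sum, map_smul, smul_eq_mul]
    refine Continuous.sub ?_ (continuous_const.mul (hc _))
    exact continuous_finset_sum _ fun i _ => continuous_finset_sum _ fun j _ =>
      (hM i j).mul ((hc _).sub (hc _))
  simp only [fam, fF, map_add, map_sub, map_mul, map_smul, map_sum, map_one, smul_eq_mul]
  exact (((continuous_const.mul ((continuous_const.mul hR).sub (continuous_const.mul
    (continuous_finset_sum _ fun i _ => hK i)))).sub (hm.mul hP))).add (continuous_const.sub hP)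

/-! ## Bounds -/

theorem K2_add (R S : T4 n) (u v : Fin n → ℝ) : K2 (R + S) u v = K2 R u v + K2 S u v := by
  unfold K2
  simp only [← sum_add_distrib]
  refine sum_congr rfl fun i _ => sum_congr rfl fun j _ => sum_congr rfl fun k _ =>
    sum_congr rfl fun l _ => ?_
  rw [show (R + S) i j k l = R i j k l + S i j k l from rfl]
  ring

theorem K2_smul (c : ℝ) (R : T4 n) (u v : Fin n → ℝ) : K2 (c • R) u v = c * K2 R u v := by
  unfold K2
  simp only [mul_sum]
  refine sum_congr rfl fun i _ => sum_congr rfl fun j _ => sum_congr rfl fun k _ =>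
    sum_congr rfl fun l _ => ?_
  rw [show (c • R) i j k l = c * R i j k l from rfl]
  ring

theorem K2_smul_vec (c : ℝ) (R : T4 n) (u v : Fin n → ℝ) :
    K2 R (fun i => c * u i) v = c ^ 2 * K2 R u v := by
  unfold K2
  simp only [mul_sum]
  refine sum_congr rfl fun i _ => sum_congr rfl fun j _ => sum_congr rfl fun k _ =>
    sum_congr rfl fun l _ => by ring

theorem elk_add (hLN : Goal_LN) (k : ℕ) (R S : T4 n) (v : Fin n → ℝ) (X : Fin k → Fin n → ℝ) :
    elk k (R + S) v X = elk k R v X + elk k S v X := by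
  obtain ⟨-, -, l3, -, -, -, -, -, -, -, -, l12, -⟩ := hLN n
  unfold elk
  rw [l3, l12]
  simp only [K2_add, sum_add_distrib]
  ring

theorem elk_smul (hLN : Goal_LN) (k : ℕ) (c : ℝ) (R : T4 n) (v : Fin n → ℝ)
    (X : Fin k → Fin n → ℝ) : elk k (c • R) v X = c * elk k R v X := by
  obtain ⟨-, -, -, l4, -, -, -, -, -, -, -, -, l13, -⟩ := hLN n
  unfold elk
  rw [l4, l13]
  simp only [K2_smul, ← mul_sum]
  ring

theorem elk_smul_vec (k : ℕ) (c : ℝ) (R : T4 n) (v : Fin n → ℝ)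
    (X : Fin k → Fin n → ℝ) : elk k R (fun i => c * v i) X = c ^ 2 * elk k R v X := by
  unfold elk
  rw [INV.rq_smul_vec]
  simp only [K2_smul_vec, ← mul_sum]
  ring

theorem elk_zero (k : ℕ) (R : T4 n) (X : Fin k → Fin n → ℝ) : elk k R (fun _ => 0) X = 0 := by
  have h := elk_smul_vec k 0 R (fun _ => 0) X
  simp only [zero_mul] at h
  rw [h]
  ring

theorem sum_abs_le {m : ℕ} (f : Fin m → ℝ) (C : ℝ) (h : ∀ i, |f i| ≤ C) : |∑ i, f i| ≤ m * C := by
  calc |∑ i, f i| ≤ ∑ i, |f i| := abs_sum_le_sum_abs _ _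
    _ ≤ ∑ _i : Fin m, C := sum_le_sum fun i _ => h i
    _ = m * C := by rw [sum_const, card_univ, Fintype.card_fin, nsmul_eq_mul]

theorem Ric_bound {A : T4 n} {M : ℝ} (hA : ∀ a b c d, |A a b c d| ≤ M) (a b : Fin n) :
    |Ric A a b| ≤ n * M := sum_abs_le _ _ fun i => hA _ _ _ _

theorem mul_abs_le {a b A : ℝ} (ha : |a| ≤ A) (hb : |b| ≤ 1) : |a * b| ≤ A := by
  rw [abs_mul]
  calc |a| * |b| ≤ A * 1 := mul_le_mul ha hb (abs_nonneg _) ((abs_nonneg _).trans ha)
    _ = A := mul_one A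

theorem rq_bound {B : M2 n} {M : ℝ} (hB : ∀ a b, |B a b| ≤ M) {v : Fin n → ℝ} (hv : nrm v ≤ 1) :
    |rq B v| ≤ n * (n * M) := by
  unfold rq
  exact sum_abs_le _ _ fun i => sum_abs_le _ _ fun j =>
    mul_abs_le (mul_abs_le (hB i j) (abs_le_one hv i)) (abs_le_one hv j)

theorem K2_bound {A : T4 n} {M : ℝ} (hA : ∀ a b c d, |A a b c d| ≤ M) {u v : Fin n → ℝ}
    (hu : nrm u ≤ 1) (hv : nrm v ≤ 1) : |K2 A u v| ≤ n * (n * (n * (n * M))) := by
  unfold K2
  exact sum_abs_le _ _ fun i => sum_abs_le _ _ fun j => sum_abs_le _ _ fun k =>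
    sum_abs_le _ _ fun l => mul_abs_le (mul_abs_le (mul_abs_le (mul_abs_le (hA i j k l)
      (abs_le_one hu i)) (abs_le_one hv j)) (abs_le_one hu k)) (abs_le_one hv l)

/-- constant in the bound of `elk` -/
def Ce (n k : ℕ) : ℝ := 4 * k * (n * (n * n)) + ((n : ℝ) + 1 + 3 * k) * (k * (n * (n * (n * n))))

theorem elk_bound {k : ℕ} {A : T4 n} {M : ℝ} (hn : 1 ≤ n) (hA : ∀ a b c d, |A a b c d| ≤ M)
    {v : Fin n → ℝ} {X : Fin k → Fin n → ℝ} (hv : nrm v ≤ 1) (hX : Con X) :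
    |elk k A v X| ≤ Ce n k * M := by
  have hM : 0 ≤ M := (abs_nonneg _).trans (hA ⟨0, hn⟩ ⟨0, hn⟩ ⟨0, hn⟩ ⟨0, hn⟩)
  have h1 : |4 * (k : ℝ) * rq (Ric A) v| ≤ 4 * k * (n * (n * (n * M))) := by
    rw [abs_mul, abs_of_nonneg (by positivity : (0 : ℝ) ≤ 4 * k)]
    exact mul_le_mul_of_nonneg_left (rq_bound (Ric_bound hA) hv) (by positivity)
  have hn' : (1 : ℝ) ≤ n := by exact_mod_cast hn
  have h2 : |((n : ℝ) - 1 + 3 * k) * ∑ i, K2 A v (X i)| ≤
      ((n : ℝ) + 1 + 3 * k) * (k * (n * (n * (n * (n * M))))) := by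
    rw [abs_mul]
    have hk : (0 : ℝ) ≤ k := Nat.cast_nonneg k
    refine mul_le_mul ?_ (sum_abs_le _ _ fun i => K2_bound hA hv (con_nrm hX i)) (abs_nonneg _)
      (by positivity)
    rw [abs_of_nonneg (by linarith)]
    linarith
  unfold elk
  calc |4 * (k : ℝ) * rq (Ric A) v - ((n : ℝ) - 1 + 3 * k) * ∑ i, K2 A v (X i)|
      ≤ |4 * (k : ℝ) * rq (Ric A) v| + |((n : ℝ) - 1 + 3 * k) * ∑ i, K2 A v (X i)| := abs_sub _ _
    _ ≤ _ := add_le_add h1 h2
    _ = Ce n k * M := by unfold Ce; ring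

theorem lam_bound {A : T4 n} {M : ℝ} (hn : 1 ≤ n) (hA : ∀ a b c d, |A a b c d| ≤ M) :
    |lam A| ≤ n * M := by
  have hn' : (0 : ℝ) < n := by exact_mod_cast hn
  unfold lam
  rw [abs_div, abs_of_pos hn', div_le_iff₀ hn']
  calc |∑ a, Ric A a a| ≤ n * (n * M) := sum_abs_le _ _ fun a => Ric_bound hA a a
    _ = n * M * n := by ring

theorem Ric0_bound {A : T4 n} {M : ℝ} (hn : 1 ≤ n) (hA : ∀ a b c d, |A a b c d| ≤ M)
    (a b : Fin n) : |Ric0 A a b| ≤ 2 * (n * M) := by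
  have h1 : Ric0 A a b = Ric A a b - lam A * (if a = b then 1 else 0) := by
    unfold Ric0
    rw [Matrix.sub_apply, Matrix.smul_apply, Matrix.one_apply, smul_eq_mul]
  rw [h1]
  calc |Ric A a b - lam A * (if a = b then 1 else 0)|
      ≤ |Ric A a b| + |lam A * (if a = b then 1 else 0)| := abs_sub _ _
    _ ≤ n * M + n * M := add_le_add (Ric_bound hA a b)
        (mul_abs_le (lam_bound hn hA) (by split_ifs <;> simp))
    _ = 2 * (n * M) := by ring

theorem M_le_one {M : Fin n → Fin n → ℝ} (hM : ∑ a, ∑ b, M a b ^ 2 ≤ 1) (i j : Fin n) :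
    |M i j| ≤ 1 := by
  have h3 : M i j ^ 2 ≤ 1 := by
    refine le_trans ?_ hM
    refine le_trans ?_ (Finset.single_le_sum (f := fun a => ∑ b, M a b ^ 2)
      (fun a _ => sum_nonneg fun b _ => sq_nonneg _) (Finset.mem_univ i))
    exact Finset.single_le_sum (f := fun b => M i b ^ 2)
      (fun b _ => sq_nonneg _) (Finset.mem_univ j)
  exact abs_le_one_iff_mul_self_le_one.2 (by nlinarith)

/-- constant in the bound of `mT` -/
def Cm (n : ℕ) (ε : ℝ) : ℝ := n * (n * (2 * n)) + ε * n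

theorem mT_bound {A : T4 n} {C ε : ℝ} (hn : 1 ≤ n) (hε : 0 ≤ ε) (hA : ∀ a b c d, |A a b c d| ≤ C)
    {M : Fin n → Fin n → ℝ} (hM : ∑ a, ∑ b, M a b ^ 2 ≤ 1) : |mT ε A M| ≤ Cm n ε * C := by
  have h1 : |∑ a, ∑ b, M a b * Ric0 A a b| ≤ n * (n * (2 * (n * C))) :=
    sum_abs_le _ _ fun a => sum_abs_le _ _ fun b => by
      rw [mul_comm]
      exact mul_abs_le (Ric0_bound hn hA a b) (M_le_one hM a b)
  have h2 : |ε * lam A| ≤ ε * (n * C) := by
    rw [abs_mul, abs_of_nonneg hε]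
    exact mul_le_mul_of_nonneg_left (lam_bound hn hA) hε
  unfold mT
  calc |(∑ a, ∑ b, M a b * Ric0 A a b) - ε * lam A|
      ≤ |∑ a, ∑ b, M a b * Ric0 A a b| + |ε * lam A| := abs_sub _ _
    _ ≤ _ := add_le_add h1 h2
    _ = Cm n ε * C := by unfold Cm; ring

theorem BB_bound {A : T4 n} {C : ℝ} (hA : ∀ a b c d, |A a b c d| ≤ C) (a b c d : Fin n) :
    |BB A A a b c d| ≤ n * (n * (C * C)) :=
  sum_abs_le _ _ fun e => sum_abs_le _ _ fun f => by
    rw [abs_mul]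
    exact mul_le_mul (hA _ _ _ _) (hA _ _ _ _) (abs_nonneg _) ((abs_nonneg _).trans (hA a b c d))

theorem Q_bound {A : T4 n} {C : ℝ} (hA : ∀ a b c d, |A a b c d| ≤ C) (a b c d : Fin n) :
    |Q A a b c d| ≤ 4 * (n * (n * (C * C))) := by
  have h1 := abs_le.1 (BB_bound hA a b c d)
  have h2 := abs_le.1 (BB_bound hA a b d c)
  have h3 := abs_le.1 (BB_bound hA a c b d)
  have h4 := abs_le.1 (BB_bound hA a d b c)
  unfold Q
  rw [abs_le]
  constructor <;> linarith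

theorem wdg_bound {B : M2 n} {C : ℝ} (hB : ∀ a b, |B a b| ≤ C) (a b c d : Fin n) :
    |wdg B 1 a b c d| ≤ 2 * C := by
  have h : ∀ i j k l : Fin n, |B i j * (1 : M2 n) k l| ≤ C := fun i j k l =>
    mul_abs_le (hB i j) (by rw [Matrix.one_apply]; split_ifs <;> simp)
  have h1 := abs_le.1 (h a c b d)
  have h2 := abs_le.1 (h a d b c)
  have h3 := abs_le.1 (h b d a c)
  have h4 := abs_le.1 (h b c a d)
  unfold wdg
  rw [abs_le]
  constructor <;> linarith

/-- Cauchy-Schwarz -/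
theorem CS {M h : Fin n → Fin n → ℝ} (hM : ∑ a, ∑ b, M a b ^ 2 ≤ 1) :
    ∑ a, ∑ b, M a b * h a b ≤ Real.sqrt (∑ a, ∑ b, h a b ^ 2) := by
  apply Real.le_sqrt_of_sq_le
  have h1 := sum_mul_sq_le_sq_mul_sq (univ : Finset (Fin n × Fin n)) (fun p => M p.1 p.2)
    (fun p => h p.1 p.2)
  rw [← univ_product_univ, sum_product, sum_product, sum_product] at h1
  have h2 : 0 ≤ ∑ a, ∑ b, h a b ^ 2 := sum_nonneg fun a _ => sum_nonneg fun b _ => sq_nonneg _
  calc (∑ a, ∑ b, M a b * h a b) ^ 2 ≤ (∑ a, ∑ b, M a b ^ 2) * ∑ a, ∑ b, h a b ^ 2 := h1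
    _ ≤ 1 * ∑ a, ∑ b, h a b ^ 2 := mul_le_mul_of_nonneg_right hM h2
    _ = _ := one_mul _

theorem wd_le {u v : Fin n → ℝ} (hv : nrm v ≤ 1) : wd u v ≤ nrm u := by
  unfold wd
  have h1 : 0 ≤ nrm u := sum_nonneg fun i _ => sq_nonneg _
  have h2 := sq_nonneg (dot u v)
  nlinarith

/-- `elk` of the unit sphere -/
theorem elk_Id (hLN : Goal_LN) (hR4T : G_R4T) {k : ℕ} (hk1 : 1 ≤ k) (hk : k + 2 ≤ n)
    (v : Fin n → ℝ) {X : Fin k → Fin n → ℝ} (hX : Con X) :
    3 * nrm v ≤ elk k (Id4 n) v X ∧ elk k (Id4 n) v X ≤ 4 * (n : ℝ) ^ 2 * nrm v := by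
  obtain ⟨-, -, -, -, -, -, -, -, l9, -, -, -, l13, l14⟩ := hLN n
  obtain ⟨-, -, -, -, -, -, r7, r8, -⟩ := hR4T n
  have h0 : 0 ≤ nrm v := sum_nonneg fun i _ => sq_nonneg _
  have e1 : rq (Ric (Id4 n)) v = ((n : ℝ) - 1) * nrm v := by rw [l9, l13, l14]
  have e2 : 0 ≤ ∑ i, K2 (Id4 n) v (X i) := sum_nonneg fun i _ => by rw [r7]; exact r8 _ _
  have e3 : ∑ i, K2 (Id4 n) v (X i) ≤ k * nrm v := by
    calc ∑ i, K2 (Id4 n) v (X i) ≤ ∑ _i : Fin k, nrm v :=
          sum_le_sum fun i _ => by rw [r7]; exact wd_le (con_nrm hX i)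
      _ = k * nrm v := by rw [sum_const, card_univ, Fintype.card_fin, nsmul_eq_mul]
  have hk1' : (1 : ℝ) ≤ k := by exact_mod_cast hk1
  have hk' : (k : ℝ) + 2 ≤ n := by exact_mod_cast hk
  unfold elk
  rw [e1]
  set Y := ∑ i, K2 (Id4 n) v (X i) with hY
  constructor
  · have h1 : ((n : ℝ) - 1 + 3 * k) * Y ≤ ((n : ℝ) - 1 + 3 * k) * (k * nrm v) :=
      mul_le_mul_of_nonneg_left e3 (by linarith)
    have h2 : 3 * nrm v ≤ (4 * k * ((n : ℝ) - 1) - ((n : ℝ) - 1 + 3 * k) * k) * nrm v := by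
      refine mul_le_mul_of_nonneg_right ?_ h0
      nlinarith
    nlinarith
  · have h1 : 0 ≤ ((n : ℝ) - 1 + 3 * k) * Y := mul_nonneg (by linarith) e2
    have h2 : (4 * k * ((n : ℝ) - 1)) * nrm v ≤ 4 * (n : ℝ) ^ 2 * nrm v := by
      refine mul_le_mul_of_nonneg_right ?_ h0
      nlinarith
    nlinarith

theorem mT_add (hLN : Goal_LN) (ε : ℝ) (R S : T4 n) (M : Fin n → Fin n → ℝ) :
    mT ε (R + S) M = mT ε R M + mT ε S M := by
  obtain ⟨-, -, l3, -, l5, -⟩ := hLN n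
  have h : ∀ a b, Ric0 (R + S) a b = Ric0 R a b + Ric0 S a b := by
    intro a b
    unfold Ric0
    rw [l3, l5]
    simp only [Matrix.sub_apply, Matrix.smul_apply, Matrix.add_apply, smul_eq_mul]
    ring
  unfold mT
  simp only [h, l5, mul_add, sum_add_distrib]
  ring

theorem mT_smul (hLN : Goal_LN) (ε c : ℝ) (R : T4 n) (M : Fin n → Fin n → ℝ) :
    mT ε (c • R) M = c * mT ε R M := by
  obtain ⟨-, -, -, l4, -, l6, -⟩ := hLN n
  have h : ∀ a b, Ric0 (c • R) a b = c * Ric0 R a b := by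
    intro a b
    unfold Ric0
    rw [l4, l6]
    simp only [Matrix.sub_apply, Matrix.smul_apply, smul_eq_mul]
    ring
  unfold mT
  simp only [h, l6]
  have e : ∀ a b, M a b * (c * Ric0 R a b) = c * (M a b * Ric0 R a b) := fun a b => by ring
  simp only [e, ← mul_sum]
  ring

theorem Ric0_Id (hLN : Goal_LN) (hn : 1 ≤ n) (a b : Fin n) : Ric0 (Id4 n) a b = 0 := by
  obtain ⟨-, -, -, -, -, -, -, -, l9, l10, -⟩ := hLN n
  unfold Ric0
  rw [l9, l10 hn, sub_self]
  rfl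

theorem mT_Id (hLN : Goal_LN) (hn : 1 ≤ n) (ε : ℝ) (M : Fin n → Fin n → ℝ) :
    mT ε (Id4 n) M = -(ε * ((n : ℝ) - 1)) := by
  unfold mT
  simp only [Ric0_Id hLN hn, mul_zero, sum_const_zero, (hLN n).2.2.2.2.2.2.2.2.2.1 hn]
  ring

theorem Ric0_add_Id (hLN : Goal_LN) (hn : 1 ≤ n) (R : T4 n) (β : ℝ) (a b : Fin n) :
    Ric0 (R + β • Id4 n) a b = Ric0 R a b := by
  obtain ⟨-, -, l3, l4, l5, l6, -, -, l9, l10, -⟩ := hLN n
  unfold Ric0
  rw [l3, l4, l5, l6, l9, l10 hn]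
  simp only [Matrix.sub_apply, Matrix.smul_apply, Matrix.add_apply, smul_eq_mul]
  ring

theorem hh_add_Id (hLN : Goal_LN) (hn : 1 ≤ n) (R : T4 n) (β : ℝ) :
    hh (R + β • Id4 n) = hh R := by
  unfold hh
  simp only [Ric0_add_Id hLN hn]

/-! ## Bounds near time zero -/

theorem Bd0_add (F : FB n T) {f g : F.B} (hf : F.Bd0 f) (hg : F.Bd0 g) : F.Bd0 (f + g) := by
  obtain ⟨C1, t1, h1, h1T, hf⟩ := hf
  obtain ⟨C2, t2, h2, h2T, hg⟩ := hg
  refine ⟨C1 + C2, min t1 t2, lt_min h1 h2, lt_of_le_of_lt (min_le_left _ _) h1T,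
    fun z t ht => ?_⟩
  rw [map_add]
  exact (abs_add_le _ _).trans (add_le_add (hf z t (lt_of_lt_of_le ht (min_le_left _ _)))
    (hg z t (lt_of_lt_of_le ht (min_le_right _ _))))

theorem Bd0_smul (F : FB n T) (c : ℝ) {f : F.B} (hf : F.Bd0 f) : F.Bd0 (c • f) := by
  obtain ⟨C1, t1, h1, h1T, hf⟩ := hf
  refine ⟨|c| * C1, t1, h1, h1T, fun z t ht => ?_⟩
  rw [map_smul, smul_eq_mul, abs_mul]
  exact mul_le_mul_of_nonneg_left (hf z t ht) (abs_nonneg _)

theorem Bd0_sum (F : FB n T) (hT : 0 < T) {κ : Type} (s : Finset κ) (f : κ → F.B)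
    (h : ∀ i ∈ s, F.Bd0 (f i)) : F.Bd0 (∑ i ∈ s, f i) := by
  classical
  induction s using Finset.induction_on with
  | empty =>
    refine ⟨0, T / 2, by linarith, by linarith, fun z t _ => ?_⟩
    simp
  | insert a s ha ih =>
    rw [sum_insert ha]
    exact Bd0_add F (h a (mem_insert_self a s)) (ih fun i hi => h i (mem_insert_of_mem hi))

theorem Bd0_lam (F : FB n T) (hT : 0 < T) (h : ∀ i j k l, F.Bd0 (F.R i j k l)) : F.Bd0 F.lam :=
  Bd0_smul F _ (Bd0_sum F hT _ _ fun _ _ => Bd0_sum F hT _ _ fun _ _ => h _ _ _ _)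

/-! ## The touching point -/

def C1 (n : ℕ) : ℝ := 2 * (n : ℝ) ^ 3

def C3 (n k : ℕ) : ℝ := Ce n k * (2 * (n * n))

def C4 (n : ℕ) (ε : ℝ) : ℝ := Cm n ε * (8 * ((n : ℝ) ^ 4 + (n : ℝ) ^ 2))

theorem C1_nonneg (n : ℕ) : 0 ≤ C1 n := by unfold C1; positivity

theorem C3_nonneg (n k : ℕ) : 0 ≤ C3 n k := by unfold C3 Ce; positivity

theorem C4_nonneg (n : ℕ) {ε : ℝ} (hε : 0 ≤ ε) : 0 ≤ C4 n ε := by unfold C4 Cm; positivity

theorem sqrt_hh_le (hFG2 : G_FG2) (hn : 4 ≤ n) {s : T4 n} (hs : FG s) :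
    Real.sqrt (hh s) ≤ C1 n * lam s := by
  obtain ⟨f1, -, -, -, -, -, -, -, f9, -⟩ := hFG2 n hn s hs
  have h1 : hh s ≤ (C1 n * lam s) ^ 2 := by
    refine f9.trans (le_of_eq ?_)
    unfold C1
    ring
  rw [← Real.sqrt_sq (mul_nonneg (C1_nonneg n) f1)]
  exact Real.sqrt_le_sqrt h1

theorem mT_le (hFG2 : G_FG2) (hn : 4 ≤ n) {s : T4 n} (hs : FG s) {ε : ℝ} (hε : 0 ≤ ε)
    {M : Fin n → Fin n → ℝ} (hM : ∑ a, ∑ b, M a b ^ 2 ≤ 1) :
    mT ε s M ≤ Real.sqrt (hh s) - ε * lam s ∧ mT ε s M ≤ C1 n * lam s := by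
  have h1 : mT ε s M ≤ Real.sqrt (hh s) - ε * lam s := by
    unfold mT
    have := CS (h := fun a b => Ric0 s a b) hM
    unfold hh
    linarith
  have h2 := sqrt_hh_le hFG2 hn hs
  have h3 := (hFG2 n hn s hs).1
  exact ⟨h1, by nlinarith [mul_nonneg hε h3]⟩

theorem lam_add_Id (hLN : Goal_LN) (hn : 1 ≤ n) (r : T4 n) (β : ℝ) :
    lam (r + β • Id4 n) = lam r + β * ((n : ℝ) - 1) := by
  obtain ⟨-, -, -, -, l5, l6, -, -, -, l10, -⟩ := hLN n
  rw [l5, l6, l10 hn]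

theorem touch (hLN : Goal_LN) (hR4T : G_R4T) (hFG1 : G_FG1) (hFG2 : G_FG2) (hn : 4 ≤ n) {k : ℕ}
    (hk1 : 1 ≤ k) (hk : k + 2 ≤ n) {ε c K : ℝ} (hε : 0 < ε) (hc : 0 < c) (hK0 : 0 < K)
    (hCPA : ∀ (R : T4 n) z (X : Fin k → Fin n → ℝ), FG R → 0 < lam R →
      ε ^ 2 * lam R ^ 2 ≤ hh R → nrm z = 1 → Con X → elk k R z X ≤ c * lam R →
      c * lam R ^ 2 ≤ elk k (Q R) z X)
    (hK1 : C1 n ≤ K * c) (hK2 : C4 n ε < K * c) (hK3 : 4 * C1 n * C3 n k ≤ 3 * (K * c))
    (r : T4 n) (hr : FG r) (hl : 0 < lam r) (β : ℝ) (hβ : 0 < β) (v : Fin n → ℝ)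
    (X : Fin k → Fin n → ℝ) (M : Fin n → Fin n → ℝ) (hv : nrm v = 1) (hX : Con X)
    (hM : ∑ a, ∑ b, M a b ^ 2 ≤ 1) (s : T4 n) (hs : s = r + β • Id4 n)
    (hEq : K * elk k s v X = mT ε s M) :
    0 < K * elk k ((2 : ℝ) • Q s - (4 * β) • wdg (Ric s) 1
        + (2 * ((n : ℝ) - 1) * β ^ 2 + -β ^ 2) • Id4 n) v X
      - mT ε ((2 : ℝ) • Q s - (4 * β) • wdg (Ric s) 1
        + (2 * ((n : ℝ) - 1) * β ^ 2 + -β ^ 2) • Id4 n) M := by
  have hn1 : 1 ≤ n := by omega
  have hn4 : (4 : ℝ) ≤ n := by exact_mod_cast hn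
  have hFGs : FG s := by
    rw [hs]
    exact (hFG1 n).2.2.1 β r hβ.le hr
  obtain ⟨-, hent, -⟩ := hFG2 n hn s hFGs
  obtain ⟨-, -, -, -, -, -, -, -, -, -, -, f12⟩ := hFG2 n hn s hFGs
  obtain ⟨-, -, -, -, -, -, -, -, -, -, -, g12⟩ := hFG2 n hn r hr
  have hls : lam s = lam r + β * ((n : ℝ) - 1) := by rw [hs, lam_add_Id hLN hn1]
  have hβl : β ≤ lam s := by
    rw [hls]
    nlinarith
  have hls0 : 0 < lam s := lt_of_lt_of_le hβ hβl
  obtain ⟨m1, m2⟩ := mT_le hFG2 hn hFGs hε.le hM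
  have e0 := f12 k v X hk hX
  have hId := elk_Id hLN hR4T hk1 hk v hX
  rw [hv, mul_one, mul_one] at hId
  have hC3 := C3_nonneg n k
  have hC1 := C1_nonneg n
  by_cases hcase : 4 * β * C3 n k ≤ c * lam s
  · -- small correction
    have h1 : elk k s v X ≤ c * lam s := by
      have : K * elk k s v X ≤ K * (c * lam s) := by
        rw [hEq]
        calc mT ε s M ≤ C1 n * lam s := m2
          _ ≤ (K * c) * lam s := mul_le_mul_of_nonneg_right hK1 hls0.le
          _ = K * (c * lam s) := by ring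
      exact le_of_mul_le_mul_left this hK0
    have h2 : 0 ≤ mT ε s M := by
      rw [← hEq]
      exact mul_nonneg hK0.le e0
    have h3 : ε ^ 2 * lam s ^ 2 ≤ hh s := by
      have h4 : ε * lam s ≤ Real.sqrt (hh s) := by linarith
      have h5 : 0 ≤ hh s := by
        unfold hh
        exact sum_nonneg fun a _ => sum_nonneg fun b _ => sq_nonneg _
      have h6 : (ε * lam s) ^ 2 ≤ Real.sqrt (hh s) ^ 2 :=
        pow_le_pow_left₀ (mul_nonneg hε.le hls0.le) h4 2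
      rw [Real.sq_sqrt h5] at h6
      calc ε ^ 2 * lam s ^ 2 = (ε * lam s) ^ 2 := by ring
        _ ≤ hh s := h6
    have h7 := hCPA s v X hFGs hls0 h3 hv hX h1
    have hRic : ∀ a b, |Ric s a b| ≤ n * (n * lam s) := Ric_bound hent
    have hw : ∀ a b c d, |wdg (Ric s) 1 a b c d| ≤ 2 * (n * (n * lam s)) := wdg_bound hRic
    have hQ : ∀ a b c d, |Q s a b c d| ≤ 4 * (n * (n * ((n * lam s) * (n * lam s)))) :=
      Q_bound hent
    have b1 := abs_le.1 (elk_bound hn1 hw (le_of_eq hv) hX)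
    have b2 := abs_le.1 (mT_bound hn1 hε.le hw hM)
    have b3 := abs_le.1 (mT_bound hn1 hε.le hQ hM)
    have hCe : Ce n k * (2 * (n * (n * lam s))) = C3 n k * lam s := by unfold C3; ring
    rw [hCe] at b1
    have hCm0 : 0 ≤ Cm n ε := by unfold Cm; positivity
    have eT : (2 : ℝ) • Q s - (4 * β) • wdg (Ric s) 1
        + (2 * ((n : ℝ) - 1) * β ^ 2 + -β ^ 2) • Id4 n =
        (2 : ℝ) • Q s + (-(4 * β)) • wdg (Ric s) 1
          + (2 * ((n : ℝ) - 1) * β ^ 2 + -β ^ 2) • Id4 n := by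
      rw [neg_smul, sub_eq_add_neg]
    rw [eT, elk_add hLN, elk_add hLN, elk_smul hLN, elk_smul hLN,
      elk_smul hLN, mT_add hLN, mT_add hLN, mT_smul hLN, mT_smul hLN, mT_smul hLN, mT_Id hLN hn1]
    set E1 := elk k (Q s) v X with hE1
    set E2 := elk k (wdg (Ric s) 1) v X with hE2
    set E3 := elk k (Id4 n) v X with hE3
    set m3 := mT ε (Q s) M with hm3
    set m4 := mT ε (wdg (Ric s) 1) M with hm4
    set L := lam s with hL
    -- lower bound of the elk part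
    have h8 : β * E2 ≤ β * (C3 n k * L) := mul_le_mul_of_nonneg_left b1.2 hβ.le
    have h9 : 4 * β * C3 n k * L ≤ c * L * L := mul_le_mul_of_nonneg_right hcase hls0.le
    have hbb : 0 ≤ 2 * ((n : ℝ) - 1) * β ^ 2 + -β ^ 2 := by nlinarith [sq_nonneg β]
    have h10 : 0 ≤ (2 * ((n : ℝ) - 1) * β ^ 2 + -β ^ 2) * E3 := mul_nonneg hbb (by linarith)
    have h11 : c * L ^ 2 ≤ 2 * E1 + -(4 * β) * E2 + (2 * ((n : ℝ) - 1) * β ^ 2 + -β ^ 2) * E3 := by
      nlinarith
    have h12 : K * (c * L ^ 2) ≤ K * (2 * E1 + -(4 * β) * E2 +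
        (2 * ((n : ℝ) - 1) * β ^ 2 + -β ^ 2) * E3) := mul_le_mul_of_nonneg_left h11 hK0.le
    -- upper bound of the m part
    have h13 : -(4 * β) * m4 ≤ 8 * (Cm n ε * (n : ℝ) ^ 2) * L ^ 2 := by
      have hB0 : 0 ≤ Cm n ε * (2 * (n * (n * L))) := by positivity
      have h14 : β * (-m4) ≤ L * (Cm n ε * (2 * (n * (n * L)))) := by
        calc β * (-m4) ≤ β * (Cm n ε * (2 * (n * (n * L)))) :=
              mul_le_mul_of_nonneg_left (by linarith [b2.1]) hβ.le
          _ ≤ L * (Cm n ε * (2 * (n * (n * L)))) := mul_le_mul_of_nonneg_right hβl hB0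
      have h14' : L * (Cm n ε * (2 * (n * (n * L)))) = 2 * (Cm n ε * (n : ℝ) ^ 2) * L ^ 2 := by
        ring
      rw [h14'] at h14
      linarith
    have h15 : 2 * m3 ≤ 8 * (Cm n ε * (n : ℝ) ^ 4) * L ^ 2 := by
      have h16 : Cm n ε * (4 * (n * (n * ((n * L) * (n * L))))) = 4 * (Cm n ε * (n : ℝ) ^ 4) * L ^ 2 := by
        ring
      have := b3.2
      rw [h16] at this
      linarith
    have h17 : (2 * ((n : ℝ) - 1) * β ^ 2 + -β ^ 2) * -(ε * ((n : ℝ) - 1)) ≤ 0 := by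
      have : 0 ≤ ε * ((n : ℝ) - 1) := mul_nonneg hε.le (by linarith)
      nlinarith [mul_nonneg hbb this]
    have h18 : C4 n ε * L ^ 2 < K * c * L ^ 2 :=
      mul_lt_mul_of_pos_right hK2 (by positivity)
    have h19 : C4 n ε * L ^ 2 = 8 * (Cm n ε * (n : ℝ) ^ 4) * L ^ 2 + 8 * (Cm n ε * (n : ℝ) ^ 2) * L ^ 2 := by
      unfold C4
      ring
    nlinarith
  · -- large correction
    exfalso
    push Not at hcase
    have e1 : elk k s v X = elk k r v X + β * elk k (Id4 n) v X := by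
      rw [hs, elk_add hLN, elk_smul hLN]
    have e2 := g12 k v X hk hX
    have h1 : K * (3 * β) ≤ K * elk k s v X := by
      refine mul_le_mul_of_nonneg_left ?_ hK0.le
      rw [e1]
      nlinarith [hId.1]
    rw [hEq] at h1
    have h2 : K * (3 * β) ≤ C1 n * lam s := h1.trans m2
    have hC3p : 0 < C3 n k := by
      rcases hC3.eq_or_lt with h | h
      · rw [← h] at hcase
        nlinarith
      · exact h
    have h3 : 3 * K * (c * lam s) < 3 * K * (4 * β * C3 n k) :=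
      mul_lt_mul_of_pos_left hcase (by positivity)
    have h4 : (K * (3 * β)) * (4 * C3 n k) ≤ (C1 n * lam s) * (4 * C3 n k) :=
      mul_le_mul_of_nonneg_right h2 (by positivity)
    have h5 : 4 * C1 n * C3 n k * lam s ≤ 3 * (K * c) * lam s :=
      mul_le_mul_of_nonneg_right hK3 hls0.le
    nlinarith

theorem ev_PB (hRP3 : Goal_RP3) (F : FB n T) (x : F.Z) (t : TI T) (ι : Ix n → Fin n → ℝ)
    (hι : Iso (F.nv x t) ι) (v : Ix n → ℝ) : F.ev x t (PB F v) = nrm (pullr ι v) := by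
  obtain ⟨-, -, -, -, -, -, -, -, -, -, nn, -⟩ := hRP3 n _ ι hι
  have e6 : (fun i j => F.ev x t (F.P i j)) = Pm (F.nv x t) := by
    funext i j
    exact INV.ev_P F x t i j
  rw [PB, INV.ev_fr, e6, INV.rq_Pm, nn v]

end SFAx

open SFAx in
/-- Packet SFA: the first soft estimate. -/
theorem g_SFA (hEVG : G_EVG) (hDIC : G_DIC) (hMP3 : Goal_MP3) (hCPA : G_CPA) (hFG1 : G_FG1)
    (hFG2 : G_FG2) (hR4T : G_R4T) (hRP1 : Goal_RP1) (hRP2 : Goal_RP2) (hRP3 : Goal_RP3)
    (hLN : Goal_LN) (hPRD : Goal_PRD) : G_SFA := by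
  intro n hn k hk1 hk ε hε
  obtain ⟨c, hc, hcpa⟩ := hCPA n hn k hk1 hk ε hε
  have hn1 : 1 ≤ n := by omega
  have hn4 : (4 : ℝ) ≤ n := by exact_mod_cast hn
  have hC1 := C1_nonneg n
  have hC3 := C3_nonneg n k
  have hC4 := C4_nonneg n hε.le
  have hC13 : 0 ≤ 4 * C1 n * C3 n k := by positivity
  obtain ⟨K, hKc, hK1⟩ : ∃ K : ℝ, K * c = C1 n + C4 n ε + 4 * C1 n * C3 n k + c ∧ 1 ≤ K := by
    refine ⟨(C1 n + C4 n ε + 4 * C1 n * C3 n k) / c + 1, ?_, ?_⟩
    · field_simp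
    · have : 0 ≤ (C1 n + C4 n ε + 4 * C1 n * C3 n k) / c := by positivity
      linarith
  have hK0 : 0 < K := by linarith
  have hK'0 : 0 < ε * n + 4 * (n : ℝ) ^ 2 * K := by positivity
  refine ⟨ε * n + 4 * (n : ℝ) ^ 2 * K, hK'0, ?_⟩
  intro T F hF hRF hBd hlam hFGa
  have hb := hF.toBase
  by_cases hTpos : 0 < T
  swap
  · intro z t
    exact absurd (t.2.1.trans t.2.2) hTpos
  -- the function `1/t`
  have htt : ∀ z (t : TI T), F.ev z t F.tt ∈ Set.Ioi (0 : ℝ) := fun z t => by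
    rw [hb.tt_ev]
    exact t.2.1
  have hφ : ContDiffOn ℝ ((⊤ : ℕ∞) : WithTop ℕ∞) (fun x : ℝ => x⁻¹) (Set.Ioi 0) := by
    refine (contDiffOn_inv ℝ).mono fun x hx => ?_
    exact (ne_of_gt hx : x ≠ 0)
  obtain ⟨bet, hbet⟩ := hb.comp (fun x : ℝ => x⁻¹) (Set.Ioi 0) isOpen_Ioi hφ F.tt htt
  have hch := hb.chain (fun x : ℝ => x⁻¹) (Set.Ioi 0) isOpen_Ioi hφ F.tt bet htt hbet
  have hbv : ∀ z (t : TI T), F.ev z t bet = (t : ℝ)⁻¹ := fun z t => by rw [hbet, hb.tt_ev]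
  have hbp : ∀ z (t : TI T), 0 < F.ev z t bet := fun z t => by
    rw [hbv]
    exact inv_pos.2 t.2.1
  have hH : ∀ a, F.H a bet = 0 := fun a => hb.ext _ _ fun z t => by
    rw [(hch z t).1 a, hb.tt_H, map_zero, mul_zero]
  have hD : ∀ z t, F.ev z t (F.D bet) = -(F.ev z t bet) ^ 2 := fun z t => by
    rw [(hch z t).2.2, hb.tt_D, map_one, mul_one, hbv, hb.tt_ev, deriv_inv, inv_pow]
  have hEV := fun z t ι hι => hEVG n (by omega) T F hF hRF bet hH z t ι hι
  have hnu : ∀ z t, ∑ i, F.nv z t i ^ 2 = 1 := fun z t => by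
    have := congrArg (F.ev z t) hb.nunu
    simpa [FB.nv, map_sum, map_pow] using this
  -- values of the family
  have hval : ∀ z t ι, Iso (F.nv z t) ι → ∀ q : KS n k,
      F.ev z t (fam F k K ε (Sg F bet) q) =
        K * elk k (pull ι (F.rv z t) + F.ev z t bet • Id4 n) (pullr ι q.1.1)
            (fun i => pullr ι (q.1.2.1 i)) -
          mT ε (pull ι (F.rv z t) + F.ev z t bet • Id4 n) (pull2 ι q.1.2.2) *
            nrm (pullr ι q.1.1) + (1 - nrm (pullr ι q.1.1)) := by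
    intro z t ι hι q
    obtain ⟨e1, e2, -⟩ := hEV z t ι hι
    unfold fam
    rw [map_add, ev_fF hDIC hRP2 hRP3 (by omega) F k K ε z t ι hι _ (Sg F bet) e1 e2, map_sub,
      map_one, ev_PB hRP3 F z t ι hι]
  have hnrm : ∀ z t ι, Iso (F.nv z t) ι → ∀ q : KS n k,
      0 ≤ nrm (pullr ι q.1.1) ∧ nrm (pullr ι q.1.1) ≤ 1 := by
    intro z t ι hι q
    obtain ⟨-, -, -, -, -, -, -, -, -, -, nn, -⟩ := hRP3 n _ ι hι
    refine ⟨sum_nonneg fun i _ => sq_nonneg _, ?_⟩
    rw [nn]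
    have h1 : nrm q.1.1 = 1 := q.2.1
    rw [h1]
    linarith [sq_nonneg (∑ i, F.nv z t i * q.1.1 i)]
  haveI : CompactSpace (KS n k) := isCompact_iff_compactSpace.1 (KS_compact n k)
  have hmain : ∀ q z (t : TI T), 0 < F.ev z t (fam F k K ε (Sg F bet) q) := by
    intro q z t
    refine hMP3 n T F hb (KS n k) (fam F k K ε (Sg F bet)) (cont_fam F hb k K ε (Sg F bet)) 0 t
      le_rfl t.2.2 ?_ ?_ q z t t.2.1 le_rfl
    · -- near time zero
      obtain ⟨C, t0, ht0, -, hCl⟩ := Bd0_lam F hTpos hBd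
      have hC0 : 0 ≤ |C| := abs_nonneg C
      refine ⟨min t0 (1 / (C1 n * |C| + 1)), lt_min ht0 (by positivity), fun q z t _ ht => ?_⟩
      rw [zero_add] at ht
      obtain ⟨ι, hι⟩ := hRP1 n (F.nv z t) (hnu z t)
      obtain ⟨e1, e2, e3, e4, e5, e6, e7⟩ := hEV z t ι hι
      obtain ⟨-, -, -, d4, -, -, -, d8, -⟩ := hDIC n (by omega) _ ι _ hι e2
      have hFGr := hFGa z t ι hι
      set r := pull ι (F.rv z t) with hr
      set β := F.ev z t bet with hβ
      have hX' : Con (fun i => pullr ι (q.1.2.1 i)) := d4 k _ q.2.2.1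
      have hM' : ∑ a, ∑ b, pull2 ι q.1.2.2 a b ^ 2 ≤ 1 := (d8 _).trans q.2.2.2
      have hβp : 0 < β := hbp z t
      have hFGs : FG (r + β • Id4 n) := (hFG1 n).2.2.1 β r hβp.le hFGr
      obtain ⟨-, -, -, -, -, -, -, -, -, -, -, g12⟩ := hFG2 n hn r hFGr
      rw [hval z t ι hι q, elk_add hLN, elk_smul hLN]
      have h1 := g12 k (pullr ι q.1.1) _ hk hX'
      have h2 := (elk_Id hLN hR4T hk1 hk (pullr ι q.1.1) hX').1
      have h3 : mT ε (r + β • Id4 n) (pull2 ι q.1.2.2) ≤ C1 n * |C| := by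
        have h4 := (mT_le hFG2 hn hFGs hε.le hM').1
        rw [hh_add_Id hLN hn1] at h4
        have h5 := sqrt_hh_le hFG2 hn hFGr
        have h6 : lam r ≤ |C| := by
          rw [← e5]
          exact (le_abs_self _).trans ((hCl z t (lt_of_lt_of_le ht (min_le_left _ _))).trans
            (le_abs_self C))
        have h7 : 0 ≤ lam (r + β • Id4 n) := (hFG2 n hn _ hFGs).1
        have h8 : C1 n * lam r ≤ C1 n * |C| := mul_le_mul_of_nonneg_left h6 hC1
        have h9 : 0 ≤ ε * lam (r + β • Id4 n) := mul_nonneg hε.le h7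
        linarith
      have hβ1 : C1 n * |C| + 1 ≤ β := by
        have h4 : (t : ℝ) < 1 / (C1 n * |C| + 1) := lt_of_lt_of_le ht (min_le_right _ _)
        have h5 : 0 < C1 n * |C| + 1 := by positivity
        rw [hβ, hbv]
        rw [lt_div_iff₀ h5] at h4
        have h6 : (0 : ℝ) < t := t.2.1
        rw [← one_div, le_div_iff₀ h6]
        linarith
      obtain ⟨n1, n2⟩ := hnrm z t ι hι q
      set a := nrm (pullr ι q.1.1) with ha
      set E := elk k (Id4 n) (pullr ι q.1.1) fun i => pullr ι (q.1.2.1 i) with hE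
      set E' := elk k r (pullr ι q.1.1) fun i => pullr ι (q.1.2.1 i) with hE'
      set m := mT ε (r + β • Id4 n) (pull2 ι q.1.2.2) with hm
      have h10 : β * (3 * a) ≤ E' + β * E := by
        have := mul_le_mul_of_nonneg_left h2 hβp.le
        linarith
      have h11 : β * (3 * a) ≤ K * (E' + β * E) := by
        have h12 : 0 ≤ E' + β * E := le_trans (by positivity) h10
        nlinarith
      have h13 : m * a ≤ (C1 n * |C|) * a := mul_le_mul_of_nonneg_right h3 n1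
      have h14 : (C1 n * |C| + 1) * a ≤ β * a := mul_le_mul_of_nonneg_right hβ1 n1
      nlinarith [mul_nonneg hβp.le n1]
    · -- touching point
      intro q z t' _ _ hz hall
      obtain ⟨ι, hι⟩ := hRP1 n (F.nv z t') (hnu z t')
      obtain ⟨e1, e2, e3, e4, e5, e6, e7⟩ := hEV z t' ι hι
      obtain ⟨-, -, -, d4, -, -, -, d8, -⟩ := hDIC n (by omega) _ ι _ hι e2
      obtain ⟨-, -, -, -, -, -, -, -, -, pv, nn, -⟩ := hRP3 n _ ι hι
      have hFGr := hFGa z t' ι hι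
      have hlr : 0 < lam (pull ι (F.rv z t')) := by rw [← e5]; exact hlam z t'
      have hv0 := hval z t' ι hι q
      obtain ⟨n1, n2⟩ := hnrm z t' ι hι q
      have hX' : Con (fun i => pullr ι (q.1.2.1 i)) := d4 k _ q.2.2.1
      have hM' : ∑ a, ∑ b, pull2 ι q.1.2.2 a b ^ 2 ≤ 1 := (d8 _).trans q.2.2.2
      set s := pull ι (F.rv z t') + F.ev z t' bet • Id4 n with hs
      have ha0 : nrm (pullr ι q.1.1) ≠ 0 := by
        intro h0
        have h1 : pullr ι q.1.1 = fun _ => 0 := by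
          by_contra hne
          exact absurd h0 (ne_of_gt (INV.nrm_pos hne))
        rw [hz, h0, h1, elk_zero] at hv0
        norm_num at hv0
      have hap : 0 < nrm (pullr ι q.1.1) := lt_of_le_of_ne n1 (Ne.symm ha0)
      set a := nrm (pullr ι q.1.1) with ha
      set d : ℝ := 1 / Real.sqrt a with hd
      have hda : d ^ 2 * a = 1 := by
        rw [hd, div_pow, one_pow, Real.sq_sqrt hap.le]
        field_simp
      have e0 : nrm (fun i => d * pullr ι q.1.1 i) = 1 := by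
        rw [INV.nrm_smul_vec, ← ha, hda]
      have hidx : nrm (fun i => ∑ a, ι i a * (d * pullr ι q.1.1 a)) = 1 := by
        rw [INV.nrm_iota hι (fun a => d * pullr ι q.1.1 a), e0]
      have hv1 := hval z t' ι hι
        ⟨(fun i => ∑ a, ι i a * (d * pullr ι q.1.1 a), q.1.2.1, q.1.2.2), hidx, q.2.2.1, q.2.2.2⟩
      have hv2 := hall
        ⟨(fun i => ∑ a, ι i a * (d * pullr ι q.1.1 a), q.1.2.1, q.1.2.2), hidx, q.2.2.1, q.2.2.2⟩ z
      rw [hv1] at hv2
      dsimp only at hv2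
      rw [pv (fun a => d * pullr ι q.1.1 a), e0, elk_smul_vec] at hv2
      rw [hz] at hv0
      set E := elk k s (pullr ι q.1.1) fun i => pullr ι (q.1.2.1 i) with hE
      set m := mT ε s (pull2 ι q.1.2.2) with hm
      have h1 : 0 ≤ K * E - m * a := by
        have h2 : 0 ≤ (K * (d ^ 2 * E) - m * 1 + (1 - 1)) * a := mul_nonneg hv2 hap.le
        have h3 : (K * (d ^ 2 * E) - m * 1 + (1 - 1)) * a = K * E * (d ^ 2 * a) - m * a := by ring
        rw [h3, hda, mul_one] at h2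
        exact h2
      have ha1 : a = 1 := le_antisymm n2 (by linarith)
      rw [ha1] at hv0
      have hEq : K * E = m := by linarith
      have htouch := touch hLN hR4T hFG1 hFG2 hn hk1 hk hε hc hK0 hcpa (by rw [hKc]; linarith)
        (by rw [hKc]; linarith) (by rw [hKc]; linarith) _ hFGr hlr _ (hbp z t')
        (pullr ι q.1.1) (fun i => pullr ι (q.1.2.1 i)) (pull2 ι q.1.2.2) (by rw [← ha, ha1]) hX' hM'
        s hs hEq
      have e4' := e4 s hs
      rw [hD] at e4'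
      have hfin := ev_fF hDIC hRP2 hRP3 (by omega) F k K ε z t' ι hι _
        (fun i j k l => F.Hop (Sg F bet i j k l)) e4' e3 q.1.1 q.1.2.1 q.1.2.2
      have hHop : F.Hop (fam F k K ε (Sg F bet) q) =
          fF F k K ε (fun i j k l => F.Hop (Sg F bet i j k l)) q.1.1 q.1.2.1 q.1.2.2 := by
        have h2 : F.Hop (fam F k K ε (Sg F bet) q) =
            F.Hop (fF F k K ε (Sg F bet) q.1.1 q.1.2.1 q.1.2.2) + F.Hop (1 - PB F q.1.1) := by
          unfold fam
          simp only [INV.Hop_eq, map_add]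
        rw [h2, Hop_c hPRD F hb, add_zero, Hop_fF hPRD F hb]
      rw [hHop, hfin, ← ha, ha1, mul_one]
      exact htouch
  -- the conclusion
  intro z t ι hι v X hv hX
  obtain ⟨e1, e2, e3, e4, e5, e6, e7⟩ := hEV z t ι hι
  obtain ⟨-, -, -, -, d5, -, -, -, d9, -⟩ := hDIC n (by omega) _ ι _ hι e2
  obtain ⟨-, -, -, -, -, -, -, -, -, pv, nn, -⟩ := hRP3 n _ ι hι
  have hFGr := hFGa z t ι hι
  obtain ⟨-, -, -, -, -, -, -, -, -, -, -, g12⟩ := hFG2 n hn _ hFGr
  have g := g12 k v X hk hX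
  have hlr := hlam z t
  have htp : (0 : ℝ) < t := t.2.1
  set r := pull ι (F.rv z t) with hr
  have hhh : 0 ≤ hh r := by
    unfold hh
    exact sum_nonneg fun a _ => sum_nonneg fun b _ => sq_nonneg _
  rcases hhh.eq_or_lt with h0 | hpos
  · rw [← h0, Real.sqrt_zero]
    have h1 : 0 ≤ ε * F.ev z t F.lam := mul_nonneg hε.le hlr.le
    have h2 : 0 ≤ (ε * n + 4 * (n : ℝ) ^ 2 * K) * (elk k r v X + 1 / t) :=
      mul_nonneg hK'0.le (add_nonneg g (by positivity))
    linarith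
  · have hsq : 0 < Real.sqrt (hh r) := Real.sqrt_pos.2 hpos
    set M' : M2 n := fun a b => Ric0 r a b / Real.sqrt (hh r) with hM'
    have hMM : ∑ a, ∑ b, M' a b ^ 2 = 1 := by
      simp only [hM', div_pow, Real.sq_sqrt hhh, ← sum_div]
      rw [show ∑ a, ∑ b, Ric0 r a b ^ 2 = hh r from rfl]
      exact div_self hpos.ne'
    have hlift := d9 M'
    have hidx1 : nrm (fun i => ∑ a, ι i a * v a) = 1 := by rw [INV.nrm_iota hι v, hv]
    have hidx2 : Con (fun i j => ∑ a, ι j a * X i a) := d5 k X hX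
    have hidx3 : ∑ i, ∑ j, (∑ a, ∑ b, ι i a * ι j b * M' a b) ^ 2 ≤ 1 := by
      rw [hlift.2, hMM]
    have h1 := (hmain ⟨(fun i => ∑ a, ι i a * v a, fun i j => ∑ a, ι j a * X i a,
      fun i j => ∑ a, ∑ b, ι i a * ι j b * M' a b), hidx1, hidx2, hidx3⟩ z t).le
    rw [hval z t ι hι] at h1
    dsimp only at h1
    have hXX : (fun i => pullr ι (fun j => ∑ a, ι j a * X i a)) = X := by
      funext i
      exact pv (X i)
    rw [pv v, hv, hlift.1, hXX, elk_add hLN, elk_smul hLN] at h1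
    have hId := (elk_Id hLN hR4T hk1 hk v hX).2
    rw [hv, mul_one] at hId
    have hm : mT ε (r + F.ev z t bet • Id4 n) M' =
        Real.sqrt (hh r) - ε * (F.ev z t F.lam + F.ev z t bet * ((n : ℝ) - 1)) := by
      unfold mT
      rw [lam_add_Id hLN hn1, e5]
      congr 1
      simp only [Ric0_add_Id hLN hn1]
      have h2 : ∀ a b, M' a b * Ric0 r a b = Ric0 r a b ^ 2 / Real.sqrt (hh r) := by
        intro a b
        simp only [hM']
        ring
      simp only [h2, ← sum_div]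
      rw [show ∑ a, ∑ b, Ric0 r a b ^ 2 = hh r from rfl, div_eq_iff hsq.ne',
        Real.mul_self_sqrt hhh]
    rw [hm, hbv] at h1
    set E := elk k r v X with hE
    set Ei := elk k (Id4 n) v X with hEi
    set ti : ℝ := (t : ℝ)⁻¹ with hti
    have htip : 0 < ti := inv_pos.2 htp
    rw [one_div, ← hti]
    have h3 : K * (ti * Ei) ≤ K * (ti * (4 * (n : ℝ) ^ 2)) :=
      mul_le_mul_of_nonneg_left (mul_le_mul_of_nonneg_left hId htip.le) hK0.le
    have h4 : K * E ≤ (ε * n + 4 * (n : ℝ) ^ 2 * K) * E := by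
      refine mul_le_mul_of_nonneg_right ?_ g
      have h5 : 0 ≤ ε * n := by positivity
      have h6 : (1 : ℝ) ≤ 4 * (n : ℝ) ^ 2 := by nlinarith
      nlinarith
    have h7 : ε * (ti * ((n : ℝ) - 1)) ≤ ε * n * ti := by
      have : ε * (ti * ((n : ℝ) - 1)) = ε * n * ti - ε * ti := by ring
      rw [this]
      have h8 : 0 ≤ ε * ti := by positivity
      linarith
    nlinarith

end

end Pool.Agent.Helper47.FLG
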